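import Pool.Agent.Helper97.CG.Stmts

/-!
# CG, DET1: symplectic isometries have determinant one
-/

set_option autoImplicit false

namespace Pool.Agent.Helper97.CG

open Matrix

universe u

theorem st_DET1 (k : Type u) [Field k] [IsAlgClosed k] [CharZero k] (hG : ST_GENA k) :
    ST_DET1 k := by
  intro n _ _ J hJ x hx
  have h1 := hG n J hJ x hx
  have hs : ∀ i j, J j i = -J i j := by
    intro i j
    have := congrFun (congrFun hJ.symm i) j
    rw [Matrix.transpose_apply, Matrix.smul_apply, smul_eq_mul, neg_one_mul] at this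
    exact this
  have hv : ∀ v : n → k, (J *ᵥ v) ⬝ᵥ v = 0 := by
    intro v
    have h2 : (J *ᵥ v) ⬝ᵥ v = -((J *ᵥ v) ⬝ᵥ v) := by
      have h3 : (J *ᵥ v) ⬝ᵥ v = (Jᵀ *ᵥ v) ⬝ᵥ v := by
        rw [Matrix.mulVec_transpose, dotProduct_comm, Matrix.dotProduct_mulVec]
      conv_lhs => rw [h3, hJ.symm, Matrix.smul_mulVec, smul_dotProduct, neg_one_smul]
    have h4 : (2 : k) * ((J *ᵥ v) ⬝ᵥ v) = 0 := by linear_combination h2
    exact (mul_eq_zero.1 h4).resolve_left two_ne_zero
  refine Submonoid.closure_induction (motive := fun y _ => y.det = 1) ?_ ?_ ?_ h1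
  · rintro _ ⟨v, c, rfl⟩
    rw [← Matrix.smul_vecMulVec, Matrix.vecMulVec_eq Unit,
      Matrix.det_one_add_replicateCol_mul_replicateRow, dotProduct_smul, hv, smul_zero, add_zero]
  · exact Matrix.det_one
  · intro a b _ _ ha hb
    rw [Matrix.det_mul, ha, hb, one_mul]

end Pool.Agent.Helper97.CG
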