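import Pool.Agent.Helper97.CG.Stmts

/-!
# CG, EQV: two forms of the same type and size are equivalent
-/

set_option autoImplicit false

namespace Pool.Agent.Helper97.CG

open Matrix

universe u

namespace EqvW

variable {k : Type u} [Field k] {n : Type} [Fintype n] [DecidableEq n] {p q : ℕ}

/-- an injective matrix with `card n` columns has a two-sided inverse -/
lemma exists_inv {m : Type} [Fintype m] [DecidableEq m] (X : Matrix n m k)
    (hc : Fintype.card n = Fintype.card m) (hX : ∀ a : m → k, X *ᵥ a = 0 → a = 0) :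
    ∃ X' : Matrix m n k, X * X' = 1 ∧ X' * X = 1 := by
  have hinj : Function.Injective (Matrix.toLin' X) := by
    rw [← LinearMap.ker_eq_bot, LinearMap.ker_eq_bot']
    intro a ha
    exact hX a (by simpa using ha)
  have hdim : Module.finrank k (m → k) = Module.finrank k (n → k) := by
    rw [Module.finrank_fintype_fun_eq_card, Module.finrank_fintype_fun_eq_card, hc]
  let e := LinearMap.linearEquivOfInjective (Matrix.toLin' X) hinj hdim
  refine ⟨LinearMap.toMatrix' (e.symm : (n → k) →ₗ[k] (m → k)), ?_, ?_⟩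
  · have h1 : X = LinearMap.toMatrix' (e : (m → k) →ₗ[k] (n → k)) := by
      have h2 : (e : (m → k) →ₗ[k] (n → k)) = Matrix.toLin' X := by
        ext x
        rfl
      rw [h2, LinearMap.toMatrix'_toLin']
    conv_lhs => rw [h1]
    rw [← LinearMap.toMatrix'_comp]
    have h3 : (e : (m → k) →ₗ[k] (n → k)) ∘ₗ (e.symm : (n → k) →ₗ[k] (m → k)) =
        LinearMap.id := by
      ext x
      simp
    rw [h3, LinearMap.toMatrix'_id]
  · have h1 : X = LinearMap.toMatrix' (e : (m → k) →ₗ[k] (n → k)) := by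
      have h2 : (e : (m → k) →ₗ[k] (n → k)) = Matrix.toLin' X := by
        ext x
        rfl
      rw [h2, LinearMap.toMatrix'_toLin']
    conv_lhs => rw [h1]
    rw [← LinearMap.toMatrix'_comp]
    have h3 : (e.symm : (n → k) →ₗ[k] (m → k)) ∘ₗ (e : (m → k) →ₗ[k] (n → k)) =
        LinearMap.id := by
      ext x
      simp
    rw [h3, LinearMap.toMatrix'_id]

/-- complement of a non-degenerate subspace -/
lemma exists_compl (J : Matrix n n k) (V : Matrix n (Fin p) k)
    (hc : Fintype.card n = p + q) (hS : (Vᵀ * J * V).det ≠ 0) :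
    ∃ (W : Matrix n (Fin q) k) (X' : Matrix (Fin p ⊕ Fin q) n k), Vᵀ * J * W = 0 ∧
      fromCols V W * X' = 1 ∧ X' * fromCols V W = 1 := by
  set f : (n → k) →ₗ[k] (Fin p → k) := (Vᵀ * J).mulVecLin with hf
  have hSu : IsUnit (Vᵀ * J * V).det := isUnit_iff_ne_zero.2 hS
  have hsurj : LinearMap.range f = ⊤ := by
    rw [LinearMap.range_eq_top]
    intro y
    refine ⟨V *ᵥ ((Vᵀ * J * V)⁻¹ *ᵥ y), ?_⟩
    rw [hf, Matrix.mulVecLin_apply, Matrix.mulVec_mulVec, Matrix.mulVec_mulVec,
      Matrix.mul_nonsing_inv _ hSu, Matrix.one_mulVec]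
  have hk : Module.finrank k (LinearMap.ker f) = q := by
    have h1 := LinearMap.finrank_range_add_finrank_ker f
    rw [hsurj, finrank_top, Module.finrank_fintype_fun_eq_card,
      Module.finrank_fintype_fun_eq_card, Fintype.card_fin, hc] at h1
    omega
  let b := Module.finBasisOfFinrankEq k (LinearMap.ker f) hk
  set W : Matrix n (Fin q) k := Matrix.of fun i j => (b j : n → k) i with hW
  have hWa : ∀ a : Fin q → k, W *ᵥ a = ((∑ j, a j • b j : LinearMap.ker f) : n → k) := by
    intro a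
    ext i
    rw [Submodule.coe_sum, Finset.sum_apply, Matrix.mulVec, dotProduct]
    refine Finset.sum_congr rfl fun j _ => ?_
    rw [hW, Matrix.of_apply, Submodule.coe_smul, Pi.smul_apply, smul_eq_mul, mul_comm]
  have hJW : Vᵀ * J * W = 0 := by
    ext i j
    have h1 : f (b j : n → k) = 0 := (b j).2
    exact congrFun h1 i
  have hcard : Fintype.card n = Fintype.card (Fin p ⊕ Fin q) := by
    rw [Fintype.card_sum, Fintype.card_fin, Fintype.card_fin, hc]
  obtain ⟨X', h1, h2⟩ := exists_inv (fromCols V W) hcard (by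
    intro a ha
    rw [Matrix.fromCols_mulVec] at ha
    have h3 : (Vᵀ * J) *ᵥ (V *ᵥ (a ∘ Sum.inl) + W *ᵥ (a ∘ Sum.inr)) = 0 := by
      rw [ha, Matrix.mulVec_zero]
    rw [Matrix.mulVec_add, Matrix.mulVec_mulVec, Matrix.mulVec_mulVec, hJW, Matrix.zero_mulVec,
      add_zero] at h3
    have h4 : a ∘ Sum.inl = 0 := by
      have h5 : (Vᵀ * J * V)⁻¹ *ᵥ ((Vᵀ * J * V) *ᵥ (a ∘ Sum.inl)) = 0 := by
        rw [h3, Matrix.mulVec_zero]
      rwa [Matrix.mulVec_mulVec, Matrix.nonsing_inv_mul _ hSu, Matrix.one_mulVec] at h5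
    rw [h4, Matrix.mulVec_zero, zero_add, hWa] at ha
    have h6 : ∑ j, (a ∘ Sum.inr) j • b j = 0 := Subtype.ext ha
    have h7 := Fintype.linearIndependent_iff.1 b.linearIndependent _ h6
    funext c
    rcases c with c | c
    · exact congrFun h4 c
    · exact h7 c)
  exact ⟨W, X', hJW, h1, h2⟩

/-- the form in the new basis -/
lemma form_split {ε : k} {J : Matrix n n k} (hJ : IsForm ε J) (V : Matrix n (Fin p) k)
    (W : Matrix n (Fin q) k) (X' : Matrix (Fin p ⊕ Fin q) n k) (h0 : Vᵀ * J * W = 0)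
    (h1 : fromCols V W * X' = 1) (h2 : X' * fromCols V W = 1) :
    (fromCols V W)ᵀ * J * fromCols V W = fromBlocks (Vᵀ * J * V) 0 0 (Wᵀ * J * W) ∧
      IsForm ε (Wᵀ * J * W) := by
  have hε : ε ≠ 0 := by
    rcases hJ.eps with h | h <;> rw [h] <;> simp
  have h0' : Wᵀ * J * V = 0 := by
    have h3 : (Vᵀ * J * W)ᵀ = 0 := by rw [h0, Matrix.transpose_zero]
    rw [Matrix.transpose_mul, Matrix.transpose_mul, Matrix.transpose_transpose, hJ.symm,
      Matrix.smul_mul, Matrix.mul_smul, ← Matrix.mul_assoc] at h3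
    exact (smul_eq_zero.1 h3).resolve_left hε
  have h4 : (fromCols V W)ᵀ * J * fromCols V W =
      fromBlocks (Vᵀ * J * V) 0 0 (Wᵀ * J * W) := by
    rw [Matrix.transpose_fromCols, Matrix.fromRows_mul, Matrix.fromRows_mul_fromCols, h0, h0']
  refine ⟨h4, hJ.eps, ?_, ?_⟩
  · rw [Matrix.transpose_mul, Matrix.transpose_mul, Matrix.transpose_transpose, hJ.symm,
      Matrix.smul_mul, Matrix.mul_smul, ← Matrix.mul_assoc]
  · have hJu : IsUnit J.det := isUnit_iff_ne_zero.2 hJ.det_ne
    have h5 : ((fromCols V W)ᵀ * J * fromCols V W) * (X' * J⁻¹ * X'ᵀ) = 1 := by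
      calc ((fromCols V W)ᵀ * J * fromCols V W) * (X' * J⁻¹ * X'ᵀ)
          = (fromCols V W)ᵀ * J * (fromCols V W * X') * J⁻¹ * X'ᵀ := by
            simp only [Matrix.mul_assoc]
        _ = (fromCols V W)ᵀ * (J * J⁻¹) * X'ᵀ := by rw [h1]; simp only [Matrix.mul_one, Matrix.mul_assoc]
        _ = (X' * fromCols V W)ᵀ := by
            rw [Matrix.mul_nonsing_inv _ hJu, Matrix.mul_one, Matrix.transpose_mul]
        _ = 1 := by rw [h2, Matrix.transpose_one]
    have h6 : IsUnit ((fromCols V W)ᵀ * J * fromCols V W).det :=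
      (Matrix.isUnit_iff_isUnit_det _).1 (IsUnit.of_mul_eq_one _ h5)
    rw [h4, Matrix.det_fromBlocks_zero₂₁] at h6
    exact (isUnit_iff_ne_zero.1 h6 |> mul_ne_zero_iff.1).2

/-- one step of the induction -/
lemma step {m : Type} [Fintype m] [DecidableEq m] {ε : k} {J : Matrix n n k} {J' : Matrix m m k}
    (hJ : IsForm ε J) (hJ' : IsForm ε J') (hc : Fintype.card n = p + q)
    (hc' : Fintype.card m = p + q) (V : Matrix n (Fin p) k) (V' : Matrix m (Fin p) k)
    (S : Matrix (Fin p) (Fin p) k) (hS : S.det ≠ 0) (hV : Vᵀ * J * V = S)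
    (hV' : V'ᵀ * J' * V' = S)
    (ih : ∀ A B : Matrix (Fin q) (Fin q) k, IsForm ε A → IsForm ε B →
      ∃ u : Matrix (Fin q) (Fin q) k, uᵀ * A * u = B) : ∃ u : Matrix n m k, uᵀ * J * u = J' := by
  obtain ⟨W, X', h1, h2, h3⟩ := exists_compl J V hc (by rw [hV]; exact hS)
  obtain ⟨W', X'', h1', h2', h3'⟩ := exists_compl J' V' hc' (by rw [hV']; exact hS)
  obtain ⟨h4, h5⟩ := form_split hJ V W X' h1 h2 h3
  obtain ⟨h4', h5'⟩ := form_split hJ' V' W' X'' h1' h2' h3'
  obtain ⟨u, hu⟩ := ih _ _ h5 h5'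
  rw [hV] at h4
  rw [hV'] at h4'
  refine ⟨fromCols V W * (fromBlocks 1 0 0 u : Matrix (Fin p ⊕ Fin q) (Fin p ⊕ Fin q) k) * X'', ?_⟩
  have h6 : (fromBlocks 1 0 0 u : Matrix (Fin p ⊕ Fin q) (Fin p ⊕ Fin q) k)ᵀ *
      fromBlocks S 0 0 (Wᵀ * J * W) * fromBlocks 1 0 0 u =
      fromBlocks S 0 0 (W'ᵀ * J' * W') := by
    rw [Matrix.fromBlocks_transpose, Matrix.fromBlocks_multiply, Matrix.fromBlocks_multiply]
    simp [hu]
  calc (fromCols V W * (fromBlocks 1 0 0 u : Matrix (Fin p ⊕ Fin q) (Fin p ⊕ Fin q) k) * X'')ᵀ * J *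
        (fromCols V W * (fromBlocks 1 0 0 u : Matrix (Fin p ⊕ Fin q) (Fin p ⊕ Fin q) k) * X'')
      = X''ᵀ * ((fromBlocks 1 0 0 u : Matrix (Fin p ⊕ Fin q) (Fin p ⊕ Fin q) k)ᵀ *
          ((fromCols V W)ᵀ * J * fromCols V W) * fromBlocks 1 0 0 u) * X'' := by
        simp only [Matrix.transpose_mul, Matrix.mul_assoc]
    _ = X''ᵀ * ((fromCols V' W')ᵀ * J' * fromCols V' W') * X'' := by rw [h4, h6, h4']
    _ = (fromCols V' W' * X'')ᵀ * J' * (fromCols V' W' * X'') := by
        simp only [Matrix.transpose_mul, Matrix.mul_assoc]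
    _ = J' := by rw [h2', Matrix.transpose_one, Matrix.one_mul, Matrix.mul_one]

/-- the value of the form on coordinate vectors -/
lemma entry (J : Matrix n n k) (i j : n) :
    (Pi.single i (1 : k)) ⬝ᵥ (J *ᵥ (Pi.single j (1 : k))) = J i j := by
  rw [Matrix.mulVec_single_one, single_one_dotProduct]
  rfl

lemma one_col (J : Matrix n n k) (v : n → k) (i j : Fin 1) :
    ((Matrix.of fun a (_ : Fin 1) => v a)ᵀ * J * (Matrix.of fun a (_ : Fin 1) => v a)) i j =
      v ⬝ᵥ (J *ᵥ v) := by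
  rw [Matrix.mul_assoc, Matrix.mul_apply, dotProduct]
  refine Finset.sum_congr rfl fun a _ => ?_
  rw [Matrix.transpose_apply, Matrix.of_apply]
  rfl

/-- symmetric forms take the value one -/
lemma sym_val [IsAlgClosed k] [CharZero k] {J : Matrix n n k} (hJ : IsForm 1 J)
    (hn : 0 < Fintype.card n) :
    ∃ V : Matrix n (Fin 1) k, Vᵀ * J * V = 1 := by
  have h1 : ∃ v : n → k, v ⬝ᵥ (J *ᵥ v) ≠ 0 := by
    by_contra h
    push Not at h
    have hJ0 : J = 0 := by
      ext i j
      have e1 := h (Pi.single i 1)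
      have e2 := h (Pi.single j 1)
      have e3 := h (Pi.single i 1 + Pi.single j 1)
      rw [Matrix.mulVec_add, add_dotProduct, dotProduct_add, dotProduct_add, e1, e2, entry, entry,
        zero_add, add_zero] at e3
      have e4 : J j i = J i j := by
        have := congrFun (congrFun hJ.symm i) j
        rw [Matrix.transpose_apply, one_smul] at this
        exact this
      rw [e4] at e3
      have e5 : (2 : k) * J i j = 0 := by rw [two_mul]; exact e3
      rw [Matrix.zero_apply]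
      exact (mul_eq_zero.1 e5).resolve_left two_ne_zero
    have : Nonempty n := Fintype.card_pos_iff.1 hn
    exact hJ.det_ne (by rw [hJ0, Matrix.det_zero])
  obtain ⟨v, hv⟩ := h1
  obtain ⟨c, hc⟩ := IsAlgClosed.exists_pow_nat_eq (v ⬝ᵥ (J *ᵥ v)) (n := 2) two_pos
  have hc0 : c ≠ 0 := by
    rintro rfl
    apply hv
    rw [← hc]
    simp
  refine ⟨Matrix.of fun a _ => (c⁻¹ • v) a, ?_⟩
  ext i j
  rw [one_col, Matrix.mulVec_smul, smul_dotProduct, dotProduct_smul, ← hc,
    Subsingleton.elim j i, Matrix.one_apply_eq, smul_eq_mul, smul_eq_mul]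
  field_simp

/-- antisymmetric forms: a hyperbolic plane -/
lemma alt_val [CharZero k] {J : Matrix n n k} (hJ : IsForm (-1) J) (hn : 0 < Fintype.card n) :
    2 ≤ Fintype.card n ∧ ∃ V : Matrix n (Fin 2) k, Vᵀ * J * V = !![0, 1; -1, 0] := by
  have hs : ∀ i j, J j i = -J i j := by
    intro i j
    have := congrFun (congrFun hJ.symm i) j
    rw [Matrix.transpose_apply, Matrix.smul_apply, smul_eq_mul, neg_one_mul] at this
    exact this
  have hd : ∀ i, J i i = 0 := by
    intro i
    have h1 := hs i i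
    have h2 : (2 : k) * J i i = 0 := by linear_combination h1
    exact (mul_eq_zero.1 h2).resolve_left two_ne_zero
  have h1 : ∃ i j, J i j ≠ 0 := by
    by_contra h
    push Not at h
    have hJ0 : J = 0 := by
      ext i j
      exact h i j
    have : Nonempty n := Fintype.card_pos_iff.1 hn
    exact hJ.det_ne (by rw [hJ0, Matrix.det_zero])
  obtain ⟨i, j, hij⟩ := h1
  have hne : i ≠ j := by
    rintro rfl
    exact hij (hd i)
  constructor
  · exact Fintype.one_lt_card_iff.2 ⟨i, j, hne⟩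
  · refine ⟨Matrix.of fun a c => if c = 0 then (Pi.single i (1 : k) : n → k) a
      else (J i j)⁻¹ * (Pi.single j (1 : k) : n → k) a, ?_⟩
    ext a b
    rw [Matrix.mul_apply]
    simp only [Matrix.mul_apply, Matrix.transpose_apply, Matrix.of_apply]
    fin_cases a <;> fin_cases b <;>
      simp [Pi.single_apply, Finset.sum_ite_eq', hd, hs i j, hij]

lemma main [IsAlgClosed k] [CharZero k] (ε : k) : ∀ (N : ℕ) (n m : Type) [Fintype n]
    [DecidableEq n] [Fintype m] [DecidableEq m] (J : Matrix n n k) (J' : Matrix m m k),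
    IsForm ε J → IsForm ε J' → Fintype.card n = N → Fintype.card m = N →
    ∃ u : Matrix n m k, uᵀ * J * u = J' := by
  intro N
  induction N using Nat.strong_induction_on with
  | _ N ih =>
  intro n m _ _ _ _ J J' hJ hJ' hn hm
  rcases Nat.eq_zero_or_pos N with h0 | h0
  · rw [h0] at hm
    have : IsEmpty m := Fintype.card_eq_zero_iff.1 hm
    exact ⟨0, Subsingleton.elim _ _⟩
  · rcases hJ.eps with hε | hε
    · subst hε
      obtain ⟨V, hV⟩ := sym_val hJ (by omega)
      obtain ⟨V', hV'⟩ := sym_val hJ' (by omega)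
      refine step (p := 1) (q := N - 1) hJ hJ' (by omega) (by omega) V V' 1 (by simp) hV hV' ?_
      intro A B hA hB
      exact ih (N - 1) (by omega) _ _ A B hA hB (Fintype.card_fin _) (Fintype.card_fin _)
    · subst hε
      obtain ⟨h2, V, hV⟩ := alt_val hJ (by omega)
      obtain ⟨-, V', hV'⟩ := alt_val hJ' (by omega)
      refine step (p := 2) (q := N - 2) hJ hJ' (by omega) (by omega) V V' _ ?_ hV hV' ?_
      · rw [Matrix.det_fin_two_of]
        simp
      · intro A B hA hB
        exact ih (N - 2) (by omega) _ _ A B hA hB (Fintype.card_fin _) (Fintype.card_fin _)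

end EqvW

theorem st_EQV (k : Type u) [Field k] [IsAlgClosed k] [CharZero k] : ST_EQV k := by
  intro n m _ _ _ _ ε J J' hJ hJ' hc
  exact EqvW.main ε (Fintype.card n) n m J J' hJ hJ' rfl hc.symm

end Pool.Agent.Helper97.CG
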