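import Pool.Agent.Helper97.CG.Stmts

/-!
# CG, W4X: a non-degenerate graph
-/

set_option autoImplicit false

namespace Pool.Agent.Helper97.CG

open Matrix

universe u

namespace W4Xw

variable {k : Type u} [Field k] {r : ℕ}

lemma jr_form {ε : k} {Jr : Matrix (Fin r) (Fin r) k} (h : IsForm ε Jr) : IsForm ε (JR Jr) := by
  refine ⟨h.eps, ?_, ?_⟩
  · rw [JR, Matrix.fromBlocks_transpose, h.symm, Matrix.transpose_zero, Matrix.fromBlocks_smul,
      smul_zero]
  · have h1 : JR Jr * JR Jr⁻¹ = 1 := by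
      have hu : IsUnit Jr.det := isUnit_iff_ne_zero.2 h.det_ne
      rw [JR, JR, Matrix.fromBlocks_multiply]
      simp [Matrix.mul_nonsing_inv _ hu]
    exact isUnit_iff_ne_zero.1 ((Matrix.isUnit_iff_isUnit_det _).1 (IsUnit.of_mul_eq_one _ h1))

lemma jr_one (Jr : Matrix (Fin r) (Fin r) k) :
    (fromRows (1 : Matrix (Fin r) (Fin r) k) (1 : Matrix (Fin r) (Fin r) k))ᵀ * JR Jr *
      fromRows (1 : Matrix (Fin r) (Fin r) k) (1 : Matrix (Fin r) (Fin r) k) = Jr + Jr := by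
  rw [JR, Matrix.transpose_fromRows, Matrix.transpose_one, Matrix.fromCols_mul_fromBlocks,
    Matrix.fromCols_mul_fromRows]
  simp

end W4Xw

theorem st_W4X (k : Type u) [Field k] [IsAlgClosed k] [CharZero k] (hE : ST_EQV k) :
    ST_W4X k := by
  intro r ε Jr M hJr hM
  obtain ⟨u, hu⟩ := hE _ _ ε M (JR Jr) hM (W4Xw.jr_form hJr) rfl
  set i1 : Matrix (Fin r ⊕ Fin r) (Fin r) k :=
    fromRows (1 : Matrix (Fin r) (Fin r) k) (1 : Matrix (Fin r) (Fin r) k) with hi1
  set Q0 : Matrix (Fin r ⊕ Fin r) (Fin r) k := u * i1 with hQ0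
  have h1 : Q0ᵀ * M * Q0 = Jr + Jr := by
    have h0 := W4Xw.jr_one Jr
    rw [← hi1] at h0
    rw [← h0, ← hu, hQ0, Matrix.transpose_mul]
    simp only [Matrix.mul_assoc]
  have h2 : (Q0ᵀ * M * Q0).det ≠ 0 := by
    rw [h1, ← two_smul k Jr, Matrix.det_smul]
    exact mul_ne_zero (pow_ne_zero _ two_ne_zero) hJr.det_ne
  set T : Matrix (Fin r) (Fin r) k := Q0.toRows₁ with hT
  set E : Matrix (Fin r ⊕ Fin r) (Fin r) k := fromRows (1 : Matrix (Fin r) (Fin r) k) 0 with hE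
  -- the two polynomials
  set QX : Matrix (Fin r ⊕ Fin r) (Fin r) (Polynomial k) :=
    Q0.map Polynomial.C + (Polynomial.X : Polynomial k) • E.map Polynomial.C with hQX
  set P1 : Polynomial k := (QXᵀ * M.map Polynomial.C * QX).det with hP1
  have hev : ∀ t : k, P1.eval t = ((Q0 + t • E)ᵀ * M * (Q0 + t • E)).det := by
    intro t
    have e1 : P1.eval t = Polynomial.evalRingHom t P1 := rfl
    rw [e1, hP1, RingHom.map_det, RingHom.mapMatrix_apply, Matrix.map_mul, Matrix.map_mul,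
      Matrix.transpose_map]
    have e2 : QX.map (Polynomial.evalRingHom t) = Q0 + t • E := by
      ext i j
      simp only [hQX, Matrix.map_apply, Matrix.add_apply, Matrix.smul_apply, smul_eq_mul,
        Polynomial.coe_evalRingHom, Polynomial.eval_add, Polynomial.eval_mul, Polynomial.eval_C,
        Polynomial.eval_X]
    have e3 : (M.map Polynomial.C).map (Polynomial.evalRingHom t) = M := by
      ext i j
      simp
    rw [e2, e3]
  have hP1ne : P1 ≠ 0 := by
    intro h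
    have e1 := hev 0
    rw [h, Polynomial.eval_zero, zero_smul, add_zero] at e1
    exact h2 e1.symm
  have hev2 : ∀ t : k, (-T).charpoly.eval t = (T + t • (1 : Matrix (Fin r) (Fin r) k)).det := by
    intro t
    rw [Matrix.eval_charpoly, sub_neg_eq_add, add_comm]
    congr 2
    ext i j
    by_cases hij : i = j
    · subst hij
      simp
    · simp [hij]
  have hne : P1 * (-T).charpoly ≠ 0 := mul_ne_zero hP1ne (-T).charpoly_monic.ne_zero
  obtain ⟨t, ht⟩ : ∃ t : k, (P1 * (-T).charpoly).eval t ≠ 0 := by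
    by_contra h
    push Not at h
    exact hne (Polynomial.funext fun t => by rw [h t, Polynomial.eval_zero])
  rw [Polynomial.eval_mul, hev, hev2] at ht
  obtain ⟨ht1, ht2⟩ := mul_ne_zero_iff.1 ht
  set A : Matrix (Fin r) (Fin r) k := T + t • (1 : Matrix (Fin r) (Fin r) k) with hA
  set Q : Matrix (Fin r ⊕ Fin r) (Fin r) k := Q0 + t • E with hQ
  have hAu : IsUnit A.det := isUnit_iff_ne_zero.2 ht2
  have hQA : Q = fromRows A Q0.toRows₂ := by
    ext i j
    rcases i with i | i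
    · simp [hQ, hE, hA, hT, Matrix.toRows₁]
    · simp [hQ, hE, Matrix.toRows₂]
  refine ⟨Q0.toRows₂ * A⁻¹, ?_⟩
  have h5 : fromRows (1 : Matrix (Fin r) (Fin r) k) (Q0.toRows₂ * A⁻¹) = Q * A⁻¹ := by
    rw [hQA, Matrix.fromRows_mul, Matrix.mul_nonsing_inv _ hAu]
  have h6 : (Q * A⁻¹)ᵀ * M * (Q * A⁻¹) = (A⁻¹)ᵀ * (Qᵀ * M * Q) * A⁻¹ := by
    rw [Matrix.transpose_mul]
    simp only [Matrix.mul_assoc]
  rw [h5]
  have h8 : ((Q * A⁻¹)ᵀ * M * (Q * A⁻¹)).det = (A⁻¹).det * (Qᵀ * M * Q).det * (A⁻¹).det := by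
    rw [h6, Matrix.det_mul, Matrix.det_mul, Matrix.det_transpose]
  refine ne_of_eq_of_ne h8 ?_
  have h7 : (A⁻¹).det ≠ 0 := isUnit_iff_ne_zero.1 (Matrix.isUnit_nonsing_inv_det A hAu)
  exact mul_ne_zero (mul_ne_zero h7 ht1) h7

end Pool.Agent.Helper97.CG
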