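import Pool.Agent.Helper48.CG.EQV
import Pool.Agent.Helper48.CG.W4X

/-!
# CG, W4Y: an isometry of determinant one with prescribed image of the first eigenspace
-/

set_option autoImplicit false

namespace Pool.Agent.Helper97.CG

open Matrix

universe u

namespace W4Yw

variable {k : Type u} [Field k] [CharZero k] {r : ℕ}

/-- the matrix with `Y [1; 1] = P` and `Y [1; -1] = P'` -/
def mkY (P P' : Matrix (Fin r ⊕ Fin r) (Fin r) k) : Matrix (Fin r ⊕ Fin r) (Fin r ⊕ Fin r) k :=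
  fromCols ((2⁻¹ : k) • (P + P')) ((2⁻¹ : k) • (P - P'))

lemma mkY_one (P P' : Matrix (Fin r ⊕ Fin r) (Fin r) k) :
    mkY P P' * fromRows (1 : Matrix (Fin r) (Fin r) k) (1 : Matrix (Fin r) (Fin r) k) = P := by
  rw [mkY, Matrix.fromCols_mul_fromRows, Matrix.mul_one, Matrix.mul_one, ← smul_add]
  have h1 : P + P' + (P - P') = (2 : k) • P := by
    rw [two_smul]
    abel
  rw [h1, smul_smul, inv_mul_cancel₀ two_ne_zero, one_smul]

lemma mkY_iso {Jr : Matrix (Fin r) (Fin r) k} {P P' : Matrix (Fin r ⊕ Fin r) (Fin r) k}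
    (h1 : Pᵀ * JR Jr * P = Jr + Jr) (h2 : P'ᵀ * JR Jr * P' = -(Jr + Jr))
    (h3 : Pᵀ * JR Jr * P' = 0) (h4 : P'ᵀ * JR Jr * P = 0) :
    (mkY P P')ᵀ * JR Jr * mkY P P' = JR Jr := by
  have hh : (2⁻¹ : k) * 2⁻¹ * 4 = 1 := by norm_num
  rw [mkY, Matrix.transpose_fromCols, Matrix.fromRows_mul, Matrix.fromRows_mul_fromCols]
  conv_rhs => rw [JR]
  have e : ∀ (A B : Matrix (Fin r ⊕ Fin r) (Fin r) k),
      ((2⁻¹ : k) • A)ᵀ * JR Jr * ((2⁻¹ : k) • B) = ((2⁻¹ : k) * 2⁻¹) • (Aᵀ * JR Jr * B) := by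
    intro A B
    rw [Matrix.transpose_smul, Matrix.smul_mul, Matrix.smul_mul, Matrix.mul_smul, smul_smul]
  have f : (((2⁻¹ : k) * 2⁻¹) • (Jr + Jr + (Jr + Jr))) = Jr := by
    have f1 : Jr + Jr + (Jr + Jr) = (4 : k) • Jr := by
      have f2 : (4 : k) = 1 + 1 + (1 + 1) := by norm_num
      rw [f2, add_smul, add_smul, one_smul]
    rw [f1, smul_smul, hh, one_smul]
  rw [e, e, e, e]
  have g1 : (P + P')ᵀ * JR Jr * (P + P') = 0 := by
    rw [Matrix.transpose_add, Matrix.add_mul, Matrix.add_mul, Matrix.mul_add, Matrix.mul_add, h1,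
      h2, h3, h4]
    abel
  have g2 : (P + P')ᵀ * JR Jr * (P - P') = Jr + Jr + (Jr + Jr) := by
    rw [Matrix.transpose_add, Matrix.add_mul, Matrix.add_mul, Matrix.mul_sub, Matrix.mul_sub, h1,
      h2, h3, h4]
    abel
  have g3 : (P - P')ᵀ * JR Jr * (P + P') = Jr + Jr + (Jr + Jr) := by
    rw [Matrix.transpose_sub, Matrix.sub_mul, Matrix.sub_mul, Matrix.mul_add, Matrix.mul_add, h1,
      h2, h3, h4]
    abel
  have g4 : (P - P')ᵀ * JR Jr * (P - P') = 0 := by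
    rw [Matrix.transpose_sub, Matrix.sub_mul, Matrix.sub_mul, Matrix.mul_sub, Matrix.mul_sub, h1,
      h2, h3, h4]
    abel
  rw [g1, g2, g3, g4, f, smul_zero]

/-- conjugation of `diag(x, 1)` -/
def zm (x : Matrix (Fin r) (Fin r) k) : Matrix (Fin r ⊕ Fin r) (Fin r ⊕ Fin r) k :=
  (2⁻¹ : k) • fromBlocks (x + 1) (x - 1) (x - 1) (x + 1)

lemma tt : (fromBlocks 1 1 1 (-1) : Matrix (Fin r ⊕ Fin r) (Fin r ⊕ Fin r) k) *
    fromBlocks 1 1 1 (-1) = (2 : k) • 1 := by
  rw [Matrix.fromBlocks_multiply, ← Matrix.fromBlocks_one, Matrix.fromBlocks_smul]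
  simp [two_smul]

lemma zm_det (x : Matrix (Fin r) (Fin r) k) : (zm x).det = x.det := by
  have h1 : zm x * fromBlocks 1 1 1 (-1) = fromBlocks 1 1 1 (-1) * fromBlocks x 0 0 1 := by
    rw [zm, Matrix.smul_mul, Matrix.fromBlocks_multiply, Matrix.fromBlocks_multiply,
      Matrix.fromBlocks_smul]
    have a1 : (x + 1) * 1 + (x - 1) * 1 = (2 : k) • x := by
      rw [two_smul, Matrix.mul_one, Matrix.mul_one]; abel
    have a2 : (x + 1) * 1 + (x - 1) * (-1) = (2 : k) • (1 : Matrix (Fin r) (Fin r) k) := by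
      rw [two_smul, Matrix.mul_one, Matrix.mul_neg, Matrix.mul_one]; abel
    have a3 : (x - 1) * 1 + (x + 1) * 1 = (2 : k) • x := by
      rw [two_smul, Matrix.mul_one, Matrix.mul_one]; abel
    have a4 : (x - 1) * 1 + (x + 1) * (-1) = (2 : k) • (-1 : Matrix (Fin r) (Fin r) k) := by
      rw [two_smul, Matrix.mul_one, Matrix.mul_neg, Matrix.mul_one]; abel
    rw [a1, a2, a3, a4, smul_smul, smul_smul, smul_smul, inv_mul_cancel₀ two_ne_zero, one_smul,
      one_smul, one_smul]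
    simp
  have h2 : (fromBlocks 1 1 1 (-1) : Matrix (Fin r ⊕ Fin r) (Fin r ⊕ Fin r) k).det ≠ 0 := by
    intro h
    have h3 := congrArg Matrix.det (tt (k := k) (r := r))
    rw [Matrix.det_mul, h, Matrix.det_smul, Matrix.det_one, mul_zero, mul_one] at h3
    exact pow_ne_zero _ two_ne_zero h3.symm
  have h4 := congrArg Matrix.det h1
  rw [Matrix.det_mul, Matrix.det_mul, Matrix.det_fromBlocks_zero₂₁, Matrix.det_one, mul_one,
    mul_comm] at h4
  exact mul_left_cancel₀ h2 h4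

lemma mkY_mul (P P' : Matrix (Fin r ⊕ Fin r) (Fin r) k) (x : Matrix (Fin r) (Fin r) k) :
    mkY (P * x) P' = mkY P P' * zm x := by
  have hh : (2⁻¹ : k) * 2⁻¹ * 2 = 2⁻¹ := by norm_num
  rw [mkY, mkY, zm, Matrix.mul_smul, Matrix.fromCols_mul_fromBlocks]
  ext i j
  rcases j with j | j
  · simp only [Matrix.fromCols_apply_inl, Matrix.smul_apply, Matrix.add_apply, smul_eq_mul,
      Matrix.smul_mul, Matrix.mul_add, Matrix.mul_sub, Matrix.add_mul, Matrix.sub_mul,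
      Matrix.mul_one, Matrix.sub_apply]
    ring
  · simp only [Matrix.fromCols_apply_inr, Matrix.smul_apply, Matrix.add_apply, smul_eq_mul,
      Matrix.smul_mul, Matrix.mul_add, Matrix.mul_sub, Matrix.add_mul, Matrix.sub_mul,
      Matrix.mul_one, Matrix.sub_apply]
    ring

end W4Yw

theorem st_W4Y (k : Type u) [Field k] [IsAlgClosed k] [CharZero k] (hE : ST_EQV k)
    (hD : ST_DET1 k) (hR : ST_REFL k) : ST_W4Y k := by
  intro r ε Jr hJr Q hQ
  have hJ := W4Xw.jr_form hJr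
  have hcard : Fintype.card (Fin r ⊕ Fin r) = r + r := by simp
  obtain ⟨W, X', hW, hX, hX'⟩ := EqvW.exists_compl (q := r) (JR Jr) Q hcard hQ
  obtain ⟨-, hS'⟩ := EqvW.form_split hJ Q W X' hW hX hX'
  have hS : IsForm ε (Qᵀ * JR Jr * Q) := by
    refine ⟨hJ.eps, ?_, hQ⟩
    rw [Matrix.transpose_mul, Matrix.transpose_mul, Matrix.transpose_transpose, hJ.symm,
      Matrix.smul_mul, Matrix.mul_smul, ← Matrix.mul_assoc]
  have h2J : IsForm ε (Jr + Jr) := by
    refine ⟨hJr.eps, by rw [Matrix.transpose_add, hJr.symm, smul_add], ?_⟩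
    rw [← two_smul k Jr, Matrix.det_smul]
    exact mul_ne_zero (pow_ne_zero _ two_ne_zero) hJr.det_ne
  have h2J' : IsForm ε (-(Jr + Jr)) := by
    refine ⟨hJr.eps, by rw [Matrix.transpose_neg, Matrix.transpose_add, hJr.symm, ← smul_add,
      smul_neg], ?_⟩
    rw [Matrix.det_neg]
    exact mul_ne_zero (pow_ne_zero _ (by simp)) h2J.det_ne
  obtain ⟨g, hg⟩ := hE _ _ ε _ _ hS h2J rfl
  obtain ⟨g', hg'⟩ := hE _ _ ε _ _ hS' h2J' rfl
  have hgd : g.det ≠ 0 := by
    intro h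
    have h1 := congrArg Matrix.det hg
    rw [Matrix.det_mul, h, mul_zero] at h1
    exact h2J.det_ne h1.symm
  have hWQ : Wᵀ * JR Jr * Q = 0 := by
    have hε : ε ≠ 0 := by
      rcases hJ.eps with h | h <;> rw [h] <;> simp
    have h3 : (Qᵀ * JR Jr * W)ᵀ = 0 := by rw [hW, Matrix.transpose_zero]
    rw [Matrix.transpose_mul, Matrix.transpose_mul, Matrix.transpose_transpose, hJ.symm,
      Matrix.smul_mul, Matrix.mul_smul, ← Matrix.mul_assoc] at h3
    exact (smul_eq_zero.1 h3).resolve_left hε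
  have c2 : (W * g')ᵀ * JR Jr * (W * g') = -(Jr + Jr) := by
    rw [← hg', Matrix.transpose_mul]
    simp only [Matrix.mul_assoc]
  have key : ∀ y : Matrix (Fin r) (Fin r) k, yᵀ * (Qᵀ * JR Jr * Q) * y = Jr + Jr →
      (W4Yw.mkY (Q * y) (W * g'))ᵀ * JR Jr * W4Yw.mkY (Q * y) (W * g') = JR Jr := by
    intro y hy
    refine W4Yw.mkY_iso ?_ c2 ?_ ?_
    · rw [← hy, Matrix.transpose_mul]
      simp only [Matrix.mul_assoc]
    · have h5 : (Q * y)ᵀ * JR Jr * (W * g') = yᵀ * (Qᵀ * JR Jr * W) * g' := by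
        rw [Matrix.transpose_mul]
        simp only [Matrix.mul_assoc]
      rw [h5, hW, Matrix.mul_zero, Matrix.zero_mul]
    · have h5 : (W * g')ᵀ * JR Jr * (Q * y) = g'ᵀ * (Wᵀ * JR Jr * Q) * y := by
        rw [Matrix.transpose_mul]
        simp only [Matrix.mul_assoc]
      rw [h5, hWQ, Matrix.mul_zero, Matrix.zero_mul]
  have hY := key g hg
  have hdet : (W4Yw.mkY (Q * g) (W * g')).det = 1 ∨ (W4Yw.mkY (Q * g) (W * g')).det = -1 := by
    have h1 := congrArg Matrix.det hY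
    rw [Matrix.det_mul, Matrix.det_mul, Matrix.det_transpose] at h1
    have h2 : ((W4Yw.mkY (Q * g) (W * g')).det * (W4Yw.mkY (Q * g) (W * g')).det - 1) *
        (JR Jr).det = 0 := by linear_combination h1
    have h3 := (mul_eq_zero.1 h2).resolve_right hJ.det_ne
    exact mul_self_eq_one_iff.1 (sub_eq_zero.1 h3)
  rcases hdet with hd | hd
  · exact ⟨_, g, hY, hd, hgd, W4Yw.mkY_one _ _⟩
  · rcases hJ.eps with hε | hε
    · rcases Nat.eq_zero_or_pos r with h0 | h0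
      · subst h0
        rw [Matrix.det_isEmpty] at hd
        exact ⟨_, g, hY, by rw [Matrix.det_isEmpty], hgd, W4Yw.mkY_one _ _⟩
      · have hne : Nonempty (Fin r) := ⟨⟨0, h0⟩⟩
        subst hε
        obtain ⟨x, hx, hxd⟩ := hR (Fin r) Jr hJr
        have hgx : (g * x)ᵀ * (Qᵀ * JR Jr * Q) * (g * x) = Jr + Jr := by
          have h1 : (g * x)ᵀ * (Qᵀ * JR Jr * Q) * (g * x) =
              xᵀ * (gᵀ * (Qᵀ * JR Jr * Q) * g) * x := by
            rw [Matrix.transpose_mul]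
            simp only [Matrix.mul_assoc]
          rw [h1, hg, Matrix.mul_add, Matrix.add_mul, hx]
        refine ⟨_, g * x, key (g * x) hgx, ?_, ?_, W4Yw.mkY_one _ _⟩
        · rw [← Matrix.mul_assoc, W4Yw.mkY_mul, Matrix.det_mul, hd, W4Yw.zm_det, hxd]
          norm_num
        · rw [Matrix.det_mul, hxd]
          exact mul_ne_zero hgd (by simp)
    · subst hε
      exact ⟨_, g, hY, hD _ _ hJ _ hY, hgd, W4Yw.mkY_one _ _⟩

end Pool.Agent.Helper97.CG
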